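import Pool.Agent.Helper2.EG.Stmts

set_option autoImplicit false

namespace Pool.Agent.Helper2.EG

theorem fin_gen : ∀ (k : ℕ) (q : ℚ) (m : ℕ), 0 < m →
    {x : Fin k → ℕ | StrictMono x ∧ (∀ i, 1 < x i) ∧
      ∑ i, (1 : ℚ) / (x i : ℚ) + 1 / ((m : ℚ) * ∏ i, (x i : ℚ)) = q}.Finite := by
  intro k
  induction k with
  | zero =>
    intro q m hm
    exact Set.subsingleton_of_subsingleton.finite
  | succ k ih =>
    intro q m hm
    have hfin : (⋃ a ∈ Finset.range (⌊((k : ℚ) + 2) / q⌋₊ + 1),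
        (fun y : Fin k → ℕ => (Fin.cons a y : Fin (k + 1) → ℕ)) ''
        {x : Fin k → ℕ | StrictMono x ∧ (∀ i, 1 < x i) ∧
          ∑ i, (1 : ℚ) / (x i : ℚ) + 1 / (((m * (a + (if a = 0 then 1 else 0)) : ℕ) : ℚ) * ∏ i, (x i : ℚ))
            = q - 1 / (a : ℚ)}).Finite := by
      refine Set.Finite.biUnion (Finset.finite_toSet _) fun a _ => ?_
      refine Set.Finite.image _ (ih _ _ ?_)
      refine Nat.mul_pos hm ?_
      split_ifs <;> omega
    refine hfin.subset ?_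
    rintro x ⟨hx, h1, h⟩
    have hx0 : 1 < x 0 := h1 0
    have hx0q : (0 : ℚ) < x 0 := by exact_mod_cast (by omega : 0 < x 0)
    have hmq : (1 : ℚ) ≤ m := by exact_mod_cast hm
    have hpos : ∀ i, (1 : ℚ) ≤ x i := fun i => by exact_mod_cast (h1 i).le
    have hprod : (x 0 : ℚ) ≤ ∏ i, (x i : ℚ) := by
      rw [Fin.prod_univ_succ]
      have h2 : (1 : ℚ) ≤ ∏ i : Fin k, (x i.succ : ℚ) := by
        have : ∏ i : Fin k, (1 : ℚ) ≤ ∏ i : Fin k, (x i.succ : ℚ) :=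
          Finset.prod_le_prod (fun _ _ => zero_le_one) fun i _ => hpos i.succ
        simpa using this
      nlinarith
    have hmp : (x 0 : ℚ) ≤ (m : ℚ) * ∏ i, (x i : ℚ) := by nlinarith
    have hlast : 1 / ((m : ℚ) * ∏ i, (x i : ℚ)) ≤ 1 / (x 0 : ℚ) :=
      one_div_le_one_div_of_le hx0q hmp
    have hlast0 : 0 < 1 / ((m : ℚ) * ∏ i, (x i : ℚ)) := by
      apply one_div_pos.2; linarith
    have hsum : ∑ i, (1 : ℚ) / (x i : ℚ) ≤ ((k : ℚ) + 1) * (1 / (x 0 : ℚ)) := by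
      have : ∑ i : Fin (k + 1), (1 : ℚ) / (x i : ℚ) ≤ ∑ i : Fin (k + 1), 1 / (x 0 : ℚ) := by
        refine Finset.sum_le_sum fun i _ => ?_
        refine one_div_le_one_div_of_le hx0q ?_
        exact_mod_cast hx.monotone (Fin.zero_le i)
      simpa using this
    have hsum0 : 0 ≤ ∑ i, (1 : ℚ) / (x i : ℚ) := Finset.sum_nonneg fun i _ => by positivity
    have hq : 0 < q := by linarith
    have hq2 : q ≤ ((k : ℚ) + 2) / (x 0 : ℚ) := by
      have e : ((k : ℚ) + 2) / (x 0 : ℚ) = ((k : ℚ) + 1) * (1 / (x 0 : ℚ)) + 1 / (x 0 : ℚ) := by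
        field_simp; ring
      rw [e]; linarith
    have hle : (x 0 : ℚ) ≤ ((k : ℚ) + 2) / q := by
      rw [le_div_iff₀ hq]
      rw [le_div_iff₀ hx0q] at hq2
      linarith
    have hfl : x 0 ≤ ⌊((k : ℚ) + 2) / q⌋₊ := Nat.le_floor hle
    rw [Set.mem_iUnion₂]
    refine ⟨x 0, Finset.mem_range.2 (by omega), Fin.tail x, ⟨?_, ?_, ?_⟩, Fin.cons_self_tail x⟩
    · intro i j hij
      exact hx (Fin.succ_lt_succ_iff.2 hij)
    · intro i
      exact h1 i.succ
    · rw [Fin.sum_univ_succ, Fin.prod_univ_succ] at h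
      rw [if_neg (by omega), ← h]
      simp only [Fin.tail]
      push_cast
      rw [← mul_assoc, add_zero]
      ring

theorem st_FIN : ST_FIN := by
  intro n s hn
  exact fin_gen s _ n hn

end Pool.Agent.Helper2.EG
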